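import Mathlib
import Pool.Agent.Helper98.Elastic.Defs
import Pool.Agent.Helper98.Elastic.Sanity
import Pool.Agent.Helper98.Elastic.End10

/-!
# Speed large deviations for the elastic polymer (MP_330daa_pr, Q1)

The definitions (paths, energy, partition function, polymer measure, speed) are in
`Pool/Agent/Helper98/Elastic/Defs.lean`. The limits along the `n` with `⌈θ n⌉ ≡ n (mod 2)` are taken
along a proper filter (`parity_neBot`) and the probabilities there are positive (`prob_pos`).

Idea of the proof. Two strands issued from a common turning point have a large cross energy, so the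
masses of bridges, half-space walks and walks agree up to constants at the growth rate of bridges.
Irreducible bridges then form a probability distribution with a finite mean, and the law of large
numbers for bridges carries over to all walks (speed). Speeds above `θ*`: super-multiplicativity of
bridges. Speeds below `θ*`: a slow walk goes too far and comes back, its cost is the cross energy of
two stationary strands that face each other; the matching bounds come from Jensen's inequality
(lower bound) and from a two-strand decomposition (upper bound). At `θ*` itself a stretched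
exponential bound for the excess of a fast irreducible bridge is used.
-/

namespace Pool.Agent.Results.MP_330daa_pr.SpeedLDP

open Pool.Agent.Helper98.Elastic Filter Topology

/-- **Speed large deviations of the elastic polymer.** For every `β > 0` and every `κ ∈ (0, 1)` the
polymer has a speed `θ* ∈ (0, 1)`; for every `θ ∈ (θ*, 1]` there is a `J > 0` such that
`P_n (|S_n| ≥ θ n)` and (along the `n` with `⌈θ n⌉ ≡ n (mod 2)`) `P_n (S_n = ⌈θ n⌉)` are
`exp (- (J + o(1)) n)`; and for every `θ ∈ [0, θ*]`, along the same `n`, the limit of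
`n ^ (κ - 1) * log P_n (S_n = ⌈θ n⌉)` is `- β (θ* - θ) ^ (1 - κ) / (2 (1 - κ) θ* ^ (2 - κ))`. -/
theorem result (β κ : ℝ) (hβ : 0 < β) (hκ0 : 0 < κ) (hκ1 : κ < 1) :
    ∃ θs : ℝ, 0 < θs ∧ θs < 1 ∧ IsSpeed β κ θs ∧
      (∀ θ : ℝ, θs < θ → θ ≤ 1 → ∃ J : ℝ, 0 < J ∧
        Tendsto (fun n : ℕ =>
            Real.log (prob β κ n {w | θ * n ≤ ((|w (Fin.last n)| : ℤ) : ℝ)}) / (n : ℝ))
          atTop (𝓝 (-J)) ∧
        Tendsto (fun n : ℕ =>
            Real.log (prob β κ n {w | w (Fin.last n) = ⌈θ * n⌉}) / (n : ℝ))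
          (atTop ⊓ 𝓟 {n : ℕ | (⌈θ * n⌉ - (n : ℤ)) % 2 = 0}) (𝓝 (-J))) ∧
      ∀ θ : ℝ, 0 ≤ θ → θ ≤ θs →
        Tendsto (fun n : ℕ =>
            Real.log (prob β κ n {w | w (Fin.last n) = ⌈θ * n⌉}) / (n : ℝ) ^ (1 - κ))
          (atTop ⊓ 𝓟 {n : ℕ | (⌈θ * n⌉ - (n : ℤ)) % 2 = 0})
          (𝓝 (-(β * (θs - θ) ^ (1 - κ) / (2 * (1 - κ) * θs ^ (2 - κ))))) :=
  ⟨speed ⟨β, κ, hβ, hκ0, hκ1⟩, speed_pos _, speed_lt_one _, isSpeed_speed ⟨β, κ, hβ, hκ0, hκ1⟩,
    fun θ hs hθ => ⟨RF ⟨β, κ, hβ, hκ0, hκ1⟩ θ, RF_pos _ hs hθ,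
      fast_tail ⟨β, κ, hβ, hκ0, hκ1⟩ hθ, fast_point ⟨β, κ, hβ, hκ0, hκ1⟩ hs hθ⟩,
    fun _ h0 h1 => sharp_rate ⟨β, κ, hβ, hκ0, hκ1⟩ h0 h1⟩

end Pool.Agent.Results.MP_330daa_pr.SpeedLDP
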